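import Pool.Agent.L7h58.BP.Stm4
import Pool.Agent.L7h10.BP.POL

set_option autoImplicit false

/-! # Part POG of project BP: quadratic factors of the Bernoulli polynomials of degree 2q, q odd -/

namespace Pool.Agent.L7h96.BP

open Pool.Agent.L7h58.BP Finset Polynomial
open Pool.Agent.L7h10.BP (sym_shape coeff_two bernoulli_natDegree)

/-- helper10's proof of POL, for all odd `q`, with the residue class modulo 3 -/
theorem pol_gen (hR : S_RED2) (hN : S_NRT) (q : ℕ) (f : ℚ[X]) (hq2 : q % 2 = 1)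
    (hfd : f.natDegree = 2) (hfs : f.comp (1 - X) = f) (hdvd : f ∣ Polynomial.bernoulli (2 * q)) :
    (2 * q) % 3 = 2 ∧ ∃ Y : ℤ, ¬ (3 : ℤ) ∣ Y ∧
      (X ^ 2 - X + C (((3 - Y : ℤ) : ℚ) / 12)) ∣ Polynomial.bernoulli (2 * q) := by
  obtain ⟨a1, c, ha1, hfc⟩ := sym_shape f hfd hfs
  have hg : (X ^ 2 - X + C c) ∣ Polynomial.bernoulli (2 * q) := by
    obtain ⟨h, hh⟩ := hdvd
    refine ⟨C a1 * h, ?_⟩
    rw [hh, hfc]
    ring
  obtain ⟨P, hP, hPl⟩ := hR (2 * q) (even_two_mul q) (by omega)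
  set D : ℕ := primorial (2 * q + 1) with hD
  have hDpos : 0 < D := primorial_pos _
  have hDq : (D : ℚ) ≠ 0 := Nat.cast_ne_zero.2 hDpos.ne'
  have hsq : Squarefree D := squarefree_primorial _
  have hinj : Function.Injective (Int.castRingHom ℚ) := Int.cast_injective
  obtain ⟨hdB, hlB⟩ := bernoulli_natDegree (2 * q)
  set a : ℕ := c.den with ha
  have ha0 : 0 < a := c.pos
  set F : ℤ[X] := C (a : ℤ) * X ^ 2 - C (a : ℤ) * X + C c.num with hF
  have hFc2 : F.coeff 2 = a := by
    rw [hF]; simp [coeff_X, coeff_C, -eq_intCast]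
  have hFc0 : F.coeff 0 = c.num := by
    rw [hF]; simp [-eq_intCast]
  have hFdeg : F.natDegree = 2 := by
    apply le_antisymm
    · rw [natDegree_le_iff_coeff_eq_zero]
      intro j hj
      rw [hF]
      simp [coeff_X, coeff_C, show j ≠ 0 by omega, show j ≠ 2 by omega, show 1 ≠ j by omega,
        -eq_intCast]
    · apply le_natDegree_of_ne_zero
      rw [hFc2]
      exact_mod_cast ha0.ne'
  have hFlead : F.leadingCoeff = a := by rw [leadingCoeff, hFdeg, hFc2]
  have hcop : IsCoprime (c.num) (a : ℤ) := by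
    rw [Int.isCoprime_iff_nat_coprime]
    simpa using c.reduced
  have hFprim : F.IsPrimitive := by
    intro r hr
    rw [C_dvd_iff_dvd_coeff] at hr
    have h0 := hr 0
    have h2 := hr 2
    rw [hFc0] at h0
    rw [hFc2] at h2
    exact hcop.isUnit_of_dvd' h0 h2
  have hFmap : F.map (Int.castRingHom ℚ) = C (a : ℚ) * (X ^ 2 - X + C c) := by
    rw [hF]
    have h1 : (C (c.num : ℚ) : ℚ[X]) = C (a : ℚ) * C c := by
      rw [← C_mul]
      congr 1
      rw [mul_comm]
      exact (Rat.mul_den_eq_num c).symm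
    simp only [Polynomial.map_add, Polynomial.map_sub, Polynomial.map_mul, Polynomial.map_C,
      Polynomial.map_pow, Polynomial.map_X]
    have h2 : (Int.castRingHom ℚ) (a : ℤ) = (a : ℚ) := by simp
    have h3 : (Int.castRingHom ℚ) c.num = (c.num : ℚ) := rfl
    rw [h2, h3, h1]
    ring
  have haq : (a : ℚ) ≠ 0 := Nat.cast_ne_zero.2 ha0.ne'
  have hFP : F ∣ P := by
    rw [IsPrimitive.Int.dvd_iff_map_cast_dvd_map_cast F P hFprim, hP, hFmap]
    obtain ⟨h, hh⟩ := hg
    refine ⟨C ((D : ℚ) / a) * h, ?_⟩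
    rw [hh]
    have : (C (a : ℚ) : ℚ[X]) * C ((D : ℚ) / a) = C (D : ℚ) := by
      rw [← C_mul]
      congr 1
      field_simp
    linear_combination (-(X ^ 2 - X + C c) * h) * this
  obtain ⟨G, hG⟩ := hFP
  have hPlead : P.leadingCoeff = D := by
    have h1 : (P.map (Int.castRingHom ℚ)).leadingCoeff = (D : ℚ) := by
      rw [hP, leadingCoeff_mul, hlB, leadingCoeff_C, mul_one]
    rw [leadingCoeff_map_of_injective hinj] at h1
    have h2 : ((P.leadingCoeff : ℤ) : ℚ) = ((D : ℤ) : ℚ) := by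
      rw [Int.cast_natCast]
      exact h1
    exact_mod_cast h2
  have hPdeg : P.natDegree = 2 * q := by
    rw [← natDegree_map_eq_of_injective hinj, hP, natDegree_C_mul hDq, hdB]
  have hP0 : P ≠ 0 := by
    intro h
    rw [h, leadingCoeff_zero] at hPlead
    have : (D : ℤ) ≠ 0 := by exact_mod_cast hDpos.ne'
    exact this hPlead.symm
  have hF0 : F ≠ 0 := by
    intro h
    rw [h, zero_mul] at hG
    exact hP0 hG
  have hG0 : G ≠ 0 := by
    intro h
    rw [h, mul_zero] at hG
    exact hP0 hG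
  have hGdeg : G.natDegree = 2 * q - 2 := by
    have := natDegree_mul hF0 hG0
    rw [← hG, hPdeg, hFdeg] at this
    omega
  have hlead : (a : ℤ) * G.leadingCoeff = D := by
    rw [← hFlead, ← leadingCoeff_mul, ← hG, hPlead]
  have haD : a ∣ D := by
    have : (a : ℤ) ∣ (D : ℤ) := ⟨_, hlead.symm⟩
    exact_mod_cast this
  have hasq : Squarefree a := hsq.squarefree_of_dvd haD
  have hP2 : 6 * P.coeff (2 * q - 2) = D * ((2 * q).choose 2 : ℤ) := by
    have h1 : (P.map (Int.castRingHom ℚ)).coeff (2 * q - 2) =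
        D * (Polynomial.bernoulli (2 * q)).coeff (2 * q - 2) := by
      rw [hP, coeff_C_mul]
    rw [coeff_map, eq_intCast] at h1
    have h2 := coeff_two (2 * q) (by omega)
    have h3 : (6 : ℚ) * (P.coeff (2 * q - 2) : ℚ) = D * ((2 * q).choose 2 : ℚ) := by
      rw [h1, ← h2]
      ring
    exact_mod_cast h3
  -- primes at least 5 do not divide a
  have hbig : ∀ p : ℕ, p.Prime → p ∣ a → p = 2 ∨ p = 3 := by
    intro p hp hpa
    by_contra hcon
    push Not at hcon
    have hp5 : ¬ p ∣ 6 := by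
      intro h
      have h6 : p ∣ 2 * 3 := h
      rcases hp.dvd_mul.mp h6 with h | h
      · exact hcon.1 ((Nat.prime_dvd_prime_iff_eq hp Nat.prime_two).mp h)
      · exact hcon.2 ((Nat.prime_dvd_prime_iff_eq hp Nat.prime_three).mp h)
    have hpp : Prime (p : ℤ) := Nat.prime_iff_prime_int.mp hp
    have hpaZ : (p : ℤ) ∣ (a : ℤ) := by exact_mod_cast hpa
    have h1 : (p : ℤ) ∣ P.coeff (2 * q - 2) := by
      have h2 : (p : ℤ) ∣ 6 * P.coeff (2 * q - 2) := by
        rw [hP2]
        apply Dvd.dvd.mul_right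
        exact_mod_cast hpa.trans haD
      rcases hpp.dvd_or_dvd h2 with h | h
      · exfalso
        apply hp5
        exact_mod_cast h
      · exact h
    have h2 : P.coeff (2 * q - 2) = a * ((X ^ 2 - X) * G).coeff (2 * q - 2) +
        c.num * G.coeff (2 * q - 2) := by
      have : P = C (a : ℤ) * ((X ^ 2 - X) * G) + C c.num * G := by
        rw [hG, hF]
        ring
      rw [this, coeff_add, coeff_C_mul, coeff_C_mul]
    have h3 : (p : ℤ) ∣ c.num * G.coeff (2 * q - 2) := by
      have h4 : (p : ℤ) ∣ a * ((X ^ 2 - X) * G).coeff (2 * q - 2) := hpaZ.mul_right _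
      rw [h2] at h1
      exact (dvd_add_right h4).mp h1
    have h4 : ¬ (p : ℤ) ∣ c.num := by
      intro h5
      exact hpp.not_isUnit (hcop.isUnit_of_dvd' h5 hpaZ)
    have h5 : (p : ℤ) ∣ G.leadingCoeff := by
      rw [leadingCoeff, hGdeg]
      exact (hpp.dvd_or_dvd h3).resolve_left h4
    have h6 : ((p * p : ℕ) : ℤ) ∣ (D : ℤ) := by
      rw [← hlead, Nat.cast_mul]
      exact mul_dvd_mul hpaZ h5
    have h7 : p * p ∣ D := by exact_mod_cast h6
    have h8 := hsq p h7
    exact hp.one_lt.ne' (Nat.isUnit_iff.mp h8)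
  have ha6 : a ∣ 6 := by
    rw [← Nat.prod_primeFactors_of_squarefree hasq]
    have : a.primeFactors ⊆ ({2, 3} : Finset ℕ) := by
      intro p hp
      rw [Nat.mem_primeFactors] at hp
      rcases hbig p hp.1 hp.2.1 with h | h
      · simp [h]
      · simp [h]
    exact (Finset.prod_dvd_prod_of_subset _ _ _ this).trans (by decide)
  have h3a : 3 ∣ a := by
    by_contra h3
    have : Fact (Nat.Prime 3) := ⟨Nat.prime_three⟩
    obtain ⟨u, hu, hPu⟩ := hPl 3 Nat.prime_three (by omega)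
    apply hN q hq2 (F.map (Int.castRingHom (ZMod 3)))
    · refine ⟨C u⁻¹ * G.map (Int.castRingHom (ZMod 3)), ?_⟩
      rw [mul_left_comm, ← Polynomial.map_mul, ← hG, hPu, ← mul_assoc, ← C_mul,
        inv_mul_cancel₀ hu, C_1, one_mul]
    · rw [natDegree_map_of_leadingCoeff_ne_zero, hFdeg]
      rw [hFlead]
      intro h0
      apply h3
      rw [eq_intCast, Int.cast_natCast, ZMod.natCast_eq_zero_iff] at h0
      exact h0
  obtain ⟨b, hb⟩ := ha6
  have h3b : ¬ (3 : ℤ) ∣ (b : ℤ) := by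
    intro h
    have h' : 3 ∣ b := by exact_mod_cast h
    have : 3 * 3 ∣ a * b := mul_dvd_mul h3a h'
    rw [← hb] at this
    revert this
    decide
  have h3N : ¬ (3 : ℤ) ∣ c.num := by
    intro h
    have h3a' : (3 : ℤ) ∣ (a : ℤ) := by exact_mod_cast h3a
    exact Int.prime_three.not_isUnit (hcop.isUnit_of_dvd' h h3a')
  have hmod : (2 * q) % 3 = 2 := by
    have h3aZ : (3 : ℤ) ∣ (a : ℤ) := by exact_mod_cast h3a
    have h3G : ¬ (3 : ℤ) ∣ G.leadingCoeff := by
      intro h5
      have h6 : ((3 * 3 : ℕ) : ℤ) ∣ (D : ℤ) := by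
        rw [← hlead, Nat.cast_mul]
        exact mul_dvd_mul h3aZ h5
      have h7 : 3 * 3 ∣ D := by exact_mod_cast h6
      have h8 := hsq 3 h7
      rw [Nat.isUnit_iff] at h8
      omega
    have h3P : ¬ (3 : ℤ) ∣ P.coeff (2 * q - 2) := by
      have h2 : P.coeff (2 * q - 2) = a * ((X ^ 2 - X) * G).coeff (2 * q - 2) +
          c.num * G.coeff (2 * q - 2) := by
        have : P = C (a : ℤ) * ((X ^ 2 - X) * G) + C c.num * G := by
          rw [hG, hF]
          ring
        rw [this, coeff_add, coeff_C_mul, coeff_C_mul]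
      intro h1
      rw [h2] at h1
      have h4 : (3 : ℤ) ∣ a * ((X ^ 2 - X) * G).coeff (2 * q - 2) := h3aZ.mul_right _
      have h5 := (dvd_add_right h4).mp h1
      rcases Int.prime_three.dvd_or_dvd h5 with h | h
      · exact h3N h
      · apply h3G
        rwa [leadingCoeff, hGdeg]
    have h3ch : ¬ 3 ∣ (2 * q).choose 2 := by
      intro h
      apply h3P
      obtain ⟨k, hk⟩ := h
      obtain ⟨D', hD'⟩ : (3 : ℤ) ∣ (D : ℤ) := h3aZ.trans (by exact_mod_cast haD)
      rw [hk, hD'] at hP2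
      push_cast at hP2
      have h9 : (3 : ℤ) ∣ 2 * P.coeff (2 * q - 2) := ⟨D' * k, by linarith⟩
      exact (Int.prime_three.dvd_or_dvd h9).resolve_left (by norm_num)
    have hch : (2 * q).choose 2 = q * (2 * q - 1) := by
      rw [Nat.choose_two_right, mul_assoc, Nat.mul_div_cancel_left _ (by norm_num)]
    rw [hch] at h3ch
    have h10 : ¬ 3 ∣ q := fun h => h3ch (h.mul_right _)
    have h11 : ¬ 3 ∣ 2 * q - 1 := fun h => h3ch (h.mul_left _)
    clear * - hq2 h10 h11
    have h12 : q % 3 = 0 ∨ q % 3 = 1 ∨ q % 3 = 2 := by omega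
    rcases h12 with h12 | h12 | h12
    · exact absurd (Nat.dvd_of_mod_eq_zero h12) h10
    · omega
    · exfalso
      apply h11
      omega
  refine ⟨hmod, 3 - 2 * b * c.num, ?_, ?_⟩
  · intro h
    have h1 : (3 : ℤ) ∣ 2 * b * c.num := by
      have := dvd_sub (dvd_refl (3 : ℤ)) h
      rwa [sub_sub_cancel] at this
    rcases Int.prime_three.dvd_or_dvd h1 with h | h
    · rcases Int.prime_three.dvd_or_dvd h with h | h
      · revert h
        decide
      · exact h3b h
    · exact h3N h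
  · have h1 : (((3 - (3 - 2 * (b : ℤ) * c.num) : ℤ)) : ℚ) / 12 = c := by
      have h2 : c = c.num / (a : ℚ) := (Rat.num_div_den c).symm
      have h3 : (6 : ℚ) = a * b := by exact_mod_cast hb
      have h4 : (b : ℚ) ≠ 0 := by
        intro h0
        rw [h0, mul_zero] at h3
        norm_num at h3
      have h5 : (12 : ℚ) = 2 * (a * b) := by rw [← h3]; norm_num
      rw [h5]
      conv_rhs => rw [h2]
      push_cast
      field_simp
      ring
    rw [h1]
    exact hg


theorem natDegree_one_sub_X : (1 - X : ℚ[X]).natDegree = 1 := by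
  rw [show (1 - X : ℚ[X]) = C (-1) * X + C 1 by simp; ring]
  exact natDegree_linear (by norm_num)

theorem leadingCoeff_one_sub_X : (1 - X : ℚ[X]).leadingCoeff = -1 := by
  rw [show (1 - X : ℚ[X]) = C (-1) * X + C 1 by simp; ring]
  exact leadingCoeff_linear (by norm_num)

theorem natDegree_one_sub_XZ : (1 - X : ℤ[X]).natDegree = 1 := by
  rw [show (1 - X : ℤ[X]) = C (-1) * X + C 1 by simp; ring]
  exact natDegree_linear (by norm_num)

theorem leadingCoeff_one_sub_XZ : (1 - X : ℤ[X]).leadingCoeff = -1 := by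
  rw [show (1 - X : ℤ[X]) = C (-1) * X + C 1 by simp; ring]
  exact leadingCoeff_linear (by norm_num)

theorem comp_dvd {q : ℕ} {f : ℚ[X]} (hf : f ∣ Polynomial.bernoulli (2 * q)) :
    f.comp (1 - X) ∣ Polynomial.bernoulli (2 * q) := by
  obtain ⟨g, hfg⟩ := hf
  refine ⟨g.comp (1 - X), ?_⟩
  rw [← mul_comp, ← hfg, Polynomial.bernoulli_comp_one_sub_X]
  simp

/-- `Sp 2 (2q)` -/
theorem sp_two (n : ℕ) : Sp 2 n = (X + C (0 : ZMod 2)) ^ n + (X + C (1 : ZMod 2)) ^ n := by
  unfold Sp
  rw [Finset.sum_range_succ, Finset.sum_range_succ, Finset.sum_range_zero]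
  simp

theorem sp_two_eval (n : ℕ) (hn : 0 < n) (x : ZMod 2) : (Sp 2 n).eval x = 1 := by
  rw [sp_two]
  fin_cases x
  · show eval (0 : ZMod 2) _ = 1
    simp [hn.ne']
  · show eval (1 : ZMod 2) _ = 1
    have h2 : (1 : ZMod 2) + 1 = 0 := by decide
    simp [h2, hn.ne']

theorem sp_two_deg (q : ℕ) (hq : 1 ≤ q) : (Sp 2 (2 * q)).natDegree ≤ 2 * q - 2 := by
  rw [natDegree_le_iff_coeff_eq_zero]
  intro j hj
  rw [sp_two, coeff_add, coeff_X_add_C_pow, coeff_X_add_C_pow]
  have h2 : ((2 : ℕ) : ZMod 2) = 0 := by decide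
  rcases Nat.lt_or_ge (2 * q) j with h | h
  · rw [Nat.choose_eq_zero_of_lt h]
    simp
  · have : j = 2 * q ∨ j = 2 * q - 1 := by omega
    rcases this with rfl | rfl
    · rw [Nat.sub_self, Nat.choose_self]
      have h3 : (1 : ZMod 2) + 1 = 0 := by decide
      simpa using h3
    · rw [show 2 * q - (2 * q - 1) = 1 by omega, Nat.choose_symm (by omega : 1 ≤ 2 * q),
        Nat.choose_one_right, Nat.cast_mul, h2]
      simp

/-- there is no linear factor -/
theorem no_linear (hC : S_CRI) {q : ℕ} (hq : 1 ≤ q) {g h : ℚ[X]}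
    (hgh : Polynomial.bernoulli (2 * q) = g * h) (hg1 : g.natDegree = 1) : False := by
  obtain ⟨F, G, hFG, hF, hG, hor⟩ := hC (2 * q) 2 (even_two_mul q) (by omega) Nat.prime_two
    (by omega) g h hgh
  have : Fact (Nat.Prime 2) := ⟨Nat.prime_two⟩
  obtain ⟨hdB, hlB⟩ := bernoulli_natDegree (2 * q)
  have hB0 : Polynomial.bernoulli (2 * q) ≠ 0 := by
    intro h0
    rw [h0, leadingCoeff_zero] at hlB
    exact zero_ne_one hlB
  have hg0 : g ≠ 0 := by
    rintro rfl
    rw [zero_mul] at hgh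
    exact hB0 hgh
  have hh0 : h ≠ 0 := by
    rintro rfl
    rw [mul_zero] at hgh
    exact hB0 hgh
  have hdeg : g.natDegree + h.natDegree = 2 * q := by
    rw [← natDegree_mul hg0 hh0, ← hgh, hdB]
  have hS0 : Sp 2 (2 * q) ≠ 0 := by
    intro h0
    have h1 := sp_two_eval (2 * q) (by omega) 0
    rw [h0, eval_zero] at h1
    exact zero_ne_one h1
  have hF0 : F ≠ 0 := by
    rintro rfl
    rw [zero_mul] at hFG
    exact hS0 hFG.symm
  have hG0 : G ≠ 0 := by
    rintro rfl
    rw [mul_zero] at hFG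
    exact hS0 hFG.symm
  rcases hor with h1 | h1
  · have hd : F.degree = 1 := by
      rw [degree_eq_natDegree hF0, h1, hg1]
      rfl
    obtain ⟨x, hx⟩ := exists_root_of_degree_eq_one hd
    have h2 := sp_two_eval (2 * q) (by omega) x
    rw [← hFG, eval_mul, hx.eq_zero, zero_mul] at h2
    exact zero_ne_one h2
  · have h2 := sp_two_deg q hq
    rw [← hFG, natDegree_mul hF0 hG0] at h2
    omega

/-- the primitive integer polynomial -/
theorem prim_of (f : ℚ[X]) (hf : f ≠ 0) : ∃ F : ℤ[X], F.IsPrimitive ∧ F.natDegree = f.natDegree ∧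
    ∃ r : ℚ, r ≠ 0 ∧ F.map (Int.castRingHom ℚ) = C r * f := by
  have hinj : Function.Injective (Int.castRingHom ℚ) := Int.cast_injective
  obtain ⟨b, hb, hb2⟩ := IsLocalization.integerNormalization_spec (nonZeroDivisors ℤ) f
  set p1 : ℤ[X] := IsLocalization.integerNormalization (nonZeroDivisors ℤ) f with hp1
  have hb0 : b ≠ 0 := nonZeroDivisors.ne_zero hb
  have hb0q : (b : ℚ) ≠ 0 := Int.cast_ne_zero.2 hb0
  have hmap1 : p1.map (Int.castRingHom ℚ) = C (b : ℚ) * f := by
    have : (algebraMap ℤ ℚ) = Int.castRingHom ℚ := rfl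
    rw [← this, hb2]
    ext i
    simp
  have hp10 : p1 ≠ 0 := by
    intro h
    rw [h, Polynomial.map_zero] at hmap1
    exact mul_ne_zero (C_ne_zero.2 hb0q) hf hmap1.symm
  have hc1 : p1.content ≠ 0 := by
    rwa [Ne, Polynomial.content_eq_zero_iff]
  have hc1q : (p1.content : ℚ) ≠ 0 := Int.cast_ne_zero.2 hc1
  have hmap2 : C (p1.content : ℚ) * p1.primPart.map (Int.castRingHom ℚ) = C (b : ℚ) * f := by
    rw [← hmap1]
    conv_rhs => rw [p1.eq_C_content_mul_primPart]
    rw [Polynomial.map_mul, Polynomial.map_C]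
    rfl
  have hmap3 : p1.primPart.map (Int.castRingHom ℚ) = C ((b : ℚ) / p1.content) * f := by
    have h2 : (C (b : ℚ) : ℚ[X]) = C (p1.content : ℚ) * C ((b : ℚ) / p1.content) := by
      rw [← C_mul]
      congr 1
      field_simp
    rw [h2, mul_assoc] at hmap2
    exact mul_left_cancel₀ (C_ne_zero.2 hc1q) hmap2
  refine ⟨p1.primPart, p1.isPrimitive_primPart, ?_, (b : ℚ) / p1.content, div_ne_zero hb0q hc1q,
    hmap3⟩
  rw [← natDegree_map_eq_of_injective hinj, hmap3, natDegree_C_mul (div_ne_zero hb0q hc1q)]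

/-- a quadratic factor is symmetric -/
theorem quad_sym (hC : S_CRI) (hR : S_RED2) (hN : S_NRT) (q : ℕ) (f : ℚ[X]) (hq2 : q % 2 = 1)
    (hfd : f.natDegree = 2) (hdvd : f ∣ Polynomial.bernoulli (2 * q)) :
    f.comp (1 - X) = f := by
  by_contra hne
  have hq1 : 1 ≤ q := by omega
  have hf0 : f ≠ 0 := by
    rintro rfl
    rw [natDegree_zero] at hfd
    omega
  have hirr : Irreducible f := by
    rw [irreducible_iff_roots_eq_zero_of_degree_le_three (by omega) (by omega)]
    apply Multiset.eq_zero_of_forall_notMem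
    intro x hx
    have h1 : (X - C x) ∣ Polynomial.bernoulli (2 * q) :=
      (dvd_iff_isRoot.2 (isRoot_of_mem_roots hx)).trans hdvd
    obtain ⟨h, hh⟩ := h1
    exact no_linear hC hq1 hh (natDegree_X_sub_C x)
  have hdvd' := comp_dvd hdvd
  have hd' : (f.comp (1 - X)).natDegree = 2 := by
    rw [natDegree_comp, natDegree_one_sub_X, hfd]
  have hl' : (f.comp (1 - X)).leadingCoeff = f.leadingCoeff := by
    rw [leadingCoeff_comp (by rw [natDegree_one_sub_X]; norm_num), leadingCoeff_one_sub_X, hfd]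
    norm_num
  have hcop : IsCoprime f (f.comp (1 - X)) := by
    rw [hirr.coprime_iff_not_dvd]
    rintro ⟨k, hk⟩
    have hk0 : k ≠ 0 := by
      rintro rfl
      rw [mul_zero] at hk
      rw [hk, natDegree_zero] at hd'
      omega
    have h1 : k.natDegree = 0 := by
      have := congrArg natDegree hk
      rw [natDegree_mul hf0 hk0, hd', hfd] at this
      omega
    rw [eq_C_of_natDegree_eq_zero h1] at hk
    have h2 := congrArg leadingCoeff hk
    rw [leadingCoeff_mul, leadingCoeff_C, hl'] at h2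
    have h3 : k.coeff 0 = 1 := by
      have : f.leadingCoeff * k.coeff 0 = f.leadingCoeff * 1 := by rw [← h2, mul_one]
      exact mul_left_cancel₀ (leadingCoeff_ne_zero.2 hf0) this
    rw [h3, C_1, mul_one] at hk
    exact hne hk
  have hmul := hcop.mul_dvd hdvd hdvd'
  -- the integer polynomials
  obtain ⟨P, hP, hPl⟩ := hR (2 * q) (even_two_mul q) (by omega)
  set D : ℕ := primorial (2 * q + 1) with hD
  have hDpos : 0 < D := primorial_pos _
  have hDq : (D : ℚ) ≠ 0 := Nat.cast_ne_zero.2 hDpos.ne'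
  have hsq : Squarefree D := squarefree_primorial _
  have hinj : Function.Injective (Int.castRingHom ℚ) := Int.cast_injective
  obtain ⟨hdB, hlB⟩ := bernoulli_natDegree (2 * q)
  obtain ⟨F, hFp, hFd, r, hr, hFm⟩ := prim_of f hf0
  rw [hfd] at hFd
  have hF'p : (F.comp (1 - X)).IsPrimitive := by
    intro s hs
    apply hFp s
    have h1 : (C s).comp (1 - X) ∣ (F.comp (1 - X)).comp (1 - X) := by
      obtain ⟨t, ht⟩ := hs
      exact ⟨t.comp (1 - X), by rw [ht, mul_comp]⟩
    rw [C_comp, comp_assoc] at h1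
    have h2 : (1 - X : ℤ[X]).comp (1 - X) = X := by
      simp
    rwa [h2, comp_X] at h1
  have hF'm : (F.comp (1 - X)).map (Int.castRingHom ℚ) = C r * f.comp (1 - X) := by
    rw [Polynomial.map_comp, hFm, mul_comp, C_comp]
    simp
  have hFF : F * F.comp (1 - X) ∣ P := by
    rw [IsPrimitive.Int.dvd_iff_map_cast_dvd_map_cast _ P (hFp.mul hF'p), hP,
      Polynomial.map_mul, hFm, hF'm]
    obtain ⟨h, hh⟩ := hmul
    refine ⟨C ((D : ℚ) / r ^ 2) * h, ?_⟩
    rw [hh]
    have : (C (r : ℚ) : ℚ[X]) * C r * C ((D : ℚ) / r ^ 2) = C (D : ℚ) := by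
      rw [← C_mul, ← C_mul]
      congr 1
      field_simp
    linear_combination (-(f * f.comp (1 - X)) * h) * this
  obtain ⟨G, hG⟩ := hFF
  have hPlead : P.leadingCoeff = D := by
    have h1 : (P.map (Int.castRingHom ℚ)).leadingCoeff = (D : ℚ) := by
      rw [hP, leadingCoeff_mul, hlB, leadingCoeff_C, mul_one]
    rw [leadingCoeff_map_of_injective hinj] at h1
    have h2 : ((P.leadingCoeff : ℤ) : ℚ) = ((D : ℤ) : ℚ) := by
      rw [Int.cast_natCast]
      exact h1
    exact_mod_cast h2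
  have hlF' : (F.comp (1 - X)).leadingCoeff = F.leadingCoeff := by
    rw [leadingCoeff_comp (by rw [natDegree_one_sub_XZ]; norm_num), leadingCoeff_one_sub_XZ, hFd]
    norm_num
  have hlead : F.leadingCoeff * F.leadingCoeff * G.leadingCoeff = D := by
    rw [← hPlead, hG, leadingCoeff_mul, leadingCoeff_mul, hlF']
  have h3 : (3 : ℤ) ∣ F.leadingCoeff := by
    by_contra h3
    have : Fact (Nat.Prime 3) := ⟨Nat.prime_three⟩
    obtain ⟨u, hu, hPu⟩ := hPl 3 Nat.prime_three (by omega)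
    apply hN q hq2 (F.map (Int.castRingHom (ZMod 3)))
    · refine ⟨C u⁻¹ * (F.comp (1 - X) * G).map (Int.castRingHom (ZMod 3)), ?_⟩
      rw [mul_left_comm, ← Polynomial.map_mul, ← mul_assoc F, ← hG, hPu, ← mul_assoc, ← C_mul,
        inv_mul_cancel₀ hu, C_1, one_mul]
    · rw [natDegree_map_of_leadingCoeff_ne_zero, hFd]
      intro h0
      apply h3
      rw [eq_intCast, ZMod.intCast_zmod_eq_zero_iff_dvd] at h0
      exact_mod_cast h0
  have h9 : ((3 * 3 : ℕ) : ℤ) ∣ (D : ℤ) := by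
    rw [← hlead, Nat.cast_mul]
    exact (mul_dvd_mul h3 h3).mul_right _
  have h10 : 3 * 3 ∣ D := by exact_mod_cast h9
  have h11 := hsq 3 h10
  rw [Nat.isUnit_iff] at h11
  omega

/-- **POG** -/
theorem s_POG (hC : S_CRI) (hR : S_RED2) (hN : S_NRT) : S_POG := by
  intro q f hq2 hfd hdvd
  exact pol_gen hR hN q f hq2 hfd (quad_sym hC hR hN q f hq2 hfd hdvd) hdvd

end Pool.Agent.L7h96.BP
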